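import Pool.Agent.UL5.Stmts2
import Pool.Agent.Helper15_UL5.STC

/-!
# Squad UL5 (MP_c7c9bf_co), row SDC (helper62): the standard position of a double cone
-/

set_option autoImplicit false

open MeasureTheory Set

namespace Pool.Agent.UL5.H62

open Pool.Agent.UL3 Pool.Agent.UL4 Pool.Agent.UL5 Pool.Agent.UL5.H15

theorem dco_convex (C : Set (ℝ × ℝ)) (hC : Convex ℝ C) (h0 : (0 : ℝ × ℝ) ∈ C) :
    Convex ℝ (dco C) := by
  rintro y ⟨hy, c, hc, hyc⟩ y' ⟨hy', c', hc', hyc'⟩ a b ha hb hab
  have h2 : (a • y + b • y') 2 = a * y 2 + b * y' 2 := rfl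
  have h01 : ((a • y + b • y') 0, (a • y + b • y') 1)
      = a • (y 0, y 1) + b • (y' 0, y' 1) := rfl
  set z := a * y 2 + b * y' 2 with hz
  have hz1 : |z| ≤ a * |y 2| + b * |y' 2| := by
    refine (abs_add_le _ _).trans (le_of_eq ?_)
    rw [abs_mul, abs_mul, abs_of_nonneg ha, abs_of_nonneg hb]
  set s := a * (1 - |y 2|) + b * (1 - |y' 2|) with hs
  have hs1 : s ≤ 1 - |z| := by
    have : s = (a + b) - (a * |y 2| + b * |y' 2|) := by rw [hs]; ring
    rw [this, hab]
    linarith
  have ht1 : 0 ≤ a * (1 - |y 2|) := mul_nonneg ha (by linarith)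
  have ht2 : 0 ≤ b * (1 - |y' 2|) := mul_nonneg hb (by linarith)
  have hs0 : 0 ≤ s := add_nonneg ht1 ht2
  refine ⟨?_, ?_⟩
  · rw [h2]
    linarith
  · rw [h2, h01, hyc, hyc', smul_smul, smul_smul]
    rcases hs0.eq_or_lt with h | h
    · have e1 : a * (1 - |y 2|) = 0 := by linarith
      have e2 : b * (1 - |y' 2|) = 0 := by linarith
      exact ⟨0, h0, by rw [e1, e2, zero_smul, zero_smul, smul_zero, add_zero]⟩
    · have hz0 : 0 < 1 - |z| := lt_of_lt_of_le h hs1
      have hq : (a * (1 - |y 2|) / s) • c + (b * (1 - |y' 2|) / s) • c' ∈ C :=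
        hC hc hc' (div_nonneg ht1 hs0) (div_nonneg ht2 hs0) (by
          rw [← add_div, div_self h.ne'])
      have hq2 := hC hq h0 (a := s / (1 - |z|)) (b := 1 - s / (1 - |z|))
        (div_nonneg hs0 hz0.le) (by
          rw [sub_nonneg, div_le_one hz0]
          exact hs1) (by ring)
      refine ⟨_, hq2, ?_⟩
      rw [smul_zero, add_zero, smul_smul, mul_div_cancel₀ _ hz0.ne', smul_add, smul_smul,
        smul_smul, mul_div_cancel₀ _ h.ne', mul_div_cancel₀ _ h.ne']

theorem sdc : SdcStmt := by
  intro C c n p hCc hCv hCn hCs hplane hp hint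
  obtain ⟨T, hTw, hT2⟩ := exists_T n (p - c) hp
  set π : E3 → ℝ × ℝ := fun x => ((T (x - c)) 0, (T (x - c)) 1) with hπ
  have hTx : ∀ x ∈ C, T (x - c) = up (π x) 0 := by
    intro x hx
    have h1 := up_self (T (x - c))
    rw [hT2 _ (hplane x hx)] at h1
    exact h1.symm
  have hcC : c ∈ C := by
    obtain ⟨x, hx⟩ := hCn
    have h1 := hCv hx (hCs x hx) (a := 1 / 2) (b := 1 / 2) (by norm_num) (by norm_num)
      (by norm_num)
    have h2 : (1 / 2 : ℝ) • x + (1 / 2 : ℝ) • ((2 : ℝ) • c - x) = c := by module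
    rwa [h2] at h1
  have hπc : π c = 0 := by
    show ((T (c - c)) 0, (T (c - c)) 1) = 0
    rw [sub_self, map_zero]
    rfl
  have h0C : (0 : ℝ × ℝ) ∈ π '' C := ⟨c, hcC, hπc⟩
  have hconv : Convex ℝ (π '' C) := by
    rintro _ ⟨x, hx, rfl⟩ _ ⟨y, hy, rfl⟩ a b ha hb hab
    refine ⟨a • x + b • y, hCv hx hy ha hb hab, ?_⟩
    have h1 : a • x + b • y - c = a • (x - c) + b • (y - c) := by
      have h2 : c = (a + b) • c := by rw [hab, one_smul]
      conv_lhs => rw [h2]
      module
    show ((T (a • x + b • y - c)) 0, (T (a • x + b • y - c)) 1) = a • π x + b • π y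
    rw [h1, map_add, map_smul, map_smul]
    rfl
  have hTp : T (p - c) = up 0 1 := hTw
  have hTp' : T ((2 : ℝ) • c - p - c) = -up 0 1 := by
    have h1 : (2 : ℝ) • c - p - c = -(p - c) := by module
    rw [h1, map_neg, hTw]
  have hgen : C ∪ {p, (2 : ℝ) • c - p} ⊆ (fun x => T (x - c)) ⁻¹' dco (π '' C) := by
    rintro x (hx | hx)
    · show T (x - c) ∈ dco (π '' C)
      rw [hTx x hx]
      refine ⟨?_, π x, ⟨x, hx, rfl⟩, ?_⟩
      · rw [up_two, abs_zero]
        exact zero_le_one
      · rw [up_two, abs_zero, sub_zero, one_smul]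
        rfl
    · rcases hx with rfl | hx
      · show T (x - c) ∈ dco (π '' C)
        rw [hTp]
        refine ⟨?_, 0, h0C, ?_⟩
        · rw [up_two, abs_one]
        · rw [smul_zero]
          rfl
      · rw [mem_singleton_iff] at hx
        subst hx
        show T ((2 : ℝ) • c - p - c) ∈ dco (π '' C)
        rw [hTp']
        have h1 : (-up 0 1 : E3) 2 = -1 := rfl
        refine ⟨?_, 0, h0C, ?_⟩
        · rw [h1, abs_neg, abs_one]
        · rw [smul_zero]
          show (-(0 : ℝ), -(0 : ℝ)) = 0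
          rw [neg_zero]
          rfl
  have hpre : Convex ℝ ((fun x => T (x - c)) ⁻¹' dco (π '' C)) := by
    intro x hx y hy a b ha hb hab
    have h1 : a • x + b • y - c = a • (x - c) + b • (y - c) := by
      have h2 : c = (a + b) • c := by rw [hab, one_smul]
      conv_lhs => rw [h2]
      module
    show T (a • x + b • y - c) ∈ dco (π '' C)
    rw [h1, map_add, map_smul, map_smul]
    exact dco_convex _ hconv h0C hx hy ha hb hab
  have himage : (fun x => T (x - c)) '' convexHull ℝ (C ∪ {p, (2 : ℝ) • c - p})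
      = dco (π '' C) := by
    apply Subset.antisymm
    · rintro _ ⟨x, hx, rfl⟩
      exact convexHull_min hgen hpre hx
    · rintro y ⟨hy1, q, ⟨x, hx, rfl⟩, hq⟩
      have hxH : x ∈ convexHull ℝ (C ∪ {p, (2 : ℝ) • c - p}) :=
        subset_convexHull ℝ _ (Or.inl hx)
      rcases le_total 0 (y 2) with h0 | h0
      · rw [abs_of_nonneg h0] at hy1 hq
        have hpH : p ∈ convexHull ℝ (C ∪ {p, (2 : ℝ) • c - p}) :=
          subset_convexHull ℝ _ (Or.inr (Or.inl rfl))
        refine ⟨y 2 • p + (1 - y 2) • x,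
          convex_convexHull ℝ _ hpH hxH h0 (by linarith) (by ring), ?_⟩
        have h1 : y 2 • p + (1 - y 2) • x - c = y 2 • (p - c) + (1 - y 2) • (x - c) := by
          module
        show T (y 2 • p + (1 - y 2) • x - c) = y
        rw [h1, map_add, map_smul, map_smul, hTp, hTx x hx, up_smul, up_smul, up_add, smul_zero,
          zero_add, mul_one, mul_zero, add_zero, ← hq]
        exact up_self y
      · rw [abs_of_nonpos h0] at hy1 hq
        have hpH : (2 : ℝ) • c - p ∈ convexHull ℝ (C ∪ {p, (2 : ℝ) • c - p}) :=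
          subset_convexHull ℝ _ (Or.inr (Or.inr rfl))
        refine ⟨(-y 2) • ((2 : ℝ) • c - p) + (1 - -y 2) • x,
          convex_convexHull ℝ _ hpH hxH (by linarith) (by linarith) (by ring), ?_⟩
        have h1 : (-y 2) • ((2 : ℝ) • c - p) + (1 - -y 2) • x - c
            = y 2 • (p - c) + (1 - -y 2) • (x - c) := by
          module
        show T ((-y 2) • ((2 : ℝ) • c - p) + (1 - -y 2) • x - c) = y
        rw [h1, map_add, map_smul, map_smul, hTp, hTx x hx, up_smul, up_smul, up_add, smul_zero,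
          zero_add, mul_one, mul_zero, add_zero, ← hq]
        exact up_self y
  have hπcont : Continuous π := by
    have h1 : Continuous fun x : E3 => T (x - c) :=
      T.continuous.comp (continuous_id.sub continuous_const)
    exact ((PiLp.continuous_apply 2 _ 0).comp h1).prodMk ((PiLp.continuous_apply 2 _ 1).comp h1)
  refine ⟨T, π '' C, ⟨hCc.image hπcont, hconv, ?_, ?_⟩, himage⟩
  · -- symmetric
    rintro _ ⟨x, hx, rfl⟩
    refine ⟨(2 : ℝ) • c - x, hCs x hx, ?_⟩
    have h1 : (2 : ℝ) • c - x - c = -(x - c) := by module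
    show ((T ((2 : ℝ) • c - x - c)) 0, (T ((2 : ℝ) • c - x - c)) 1) = -π x
    rw [h1, map_neg]
    rfl
  · -- interior
    have hne : (interior (dco (π '' C))).Nonempty := by
      rw [← himage]
      have h1 : (fun x => T (x - c)) '' convexHull ℝ (C ∪ {p, (2 : ℝ) • c - p})
          = ((Homeomorph.subRight c).trans T.toHomeomorph) ''
            convexHull ℝ (C ∪ {p, (2 : ℝ) • c - p}) := rfl
      rw [h1, ← Homeomorph.image_interior]
      exact hint.image _
    obtain ⟨y, hy⟩ := hne
    have hyc := interior_subset hy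
    have hy1 : |y 2| ≠ 1 := by
      intro h1
      obtain ⟨_, q, _, hq⟩ := hyc
      rw [h1, sub_self, zero_smul] at hq
      have hU : IsOpen {e : ℝ × ℝ | up e (y 2) ∈ interior (dco (π '' C))} := by
        have hc : Continuous fun e : ℝ × ℝ => up e (y 2) :=
          continuous_up.comp (continuous_id.prodMk continuous_const)
        exact isOpen_interior.preimage hc
      have hU0 : {e : ℝ × ℝ | up e (y 2) ∈ interior (dco (π '' C))} = {0} := by
        ext e
        constructor
        · intro he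
          obtain ⟨_, q', _, hq'⟩ := interior_subset he
          rw [up_two, h1, sub_self, zero_smul] at hq'
          exact hq'
        · rintro rfl
          have h2 := up_self y
          rw [hq] at h2
          show up 0 (y 2) ∈ interior (dco (π '' C))
          rw [h2]
          exact hy
      rw [hU0] at hU
      haveI : (nhdsWithin (0 : ℝ × ℝ) {0}ᶜ).NeBot := Module.punctured_nhds_neBot ℝ (ℝ × ℝ) 0
      exact not_isOpen_singleton (0 : ℝ × ℝ) hU
    have h1y : (1 : ℝ) - |y 2| ≠ 0 := sub_ne_zero.2 (Ne.symm hy1)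
    have hopen : IsOpen {q : ℝ × ℝ | up ((1 - |y 2|) • q) (y 2) ∈ interior (dco (π '' C))} := by
      have hc : Continuous fun q : ℝ × ℝ => up ((1 - |y 2|) • q) (y 2) :=
        continuous_up.comp ((continuous_const_smul (1 - |y 2|)).prodMk continuous_const)
      exact isOpen_interior.preimage hc
    have hsub : {q : ℝ × ℝ | up ((1 - |y 2|) • q) (y 2) ∈ interior (dco (π '' C))} ⊆ π '' C := by
      intro q hq
      obtain ⟨_, q', hq', he⟩ := interior_subset hq
      rw [up_two] at he
      have he' : (1 - |y 2|) • q = (1 - |y 2|) • q' := he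
      have : q = q' := smul_right_injective _ h1y he'
      rw [this]
      exact hq'
    refine ⟨(1 - |y 2|)⁻¹ • (y 0, y 1), interior_maximal hsub hopen ?_⟩
    show up ((1 - |y 2|) • ((1 - |y 2|)⁻¹ • (y 0, y 1))) (y 2) ∈ interior (dco (π '' C))
    rw [smul_smul, mul_inv_cancel₀ h1y, one_smul, up_self]
    exact hy

end Pool.Agent.UL5.H62
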